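import Pool.Agent.Results.MP_9c97e9_nt.FixedNumberOfPrimes
import Pool.Agent.V11291.F9.Low

/-!
# The parity conjecture for an exactly determined proportion of the twists of `X_0(14)` with a fixed
# number of prime factors, and of all the twists of a class

`E_D` is the quadratic twist by `D` of the modular curve `X_0(14)`.  The class `Adm` consists of the
squarefree `D`, positive or negative, `D = 1` modulo `4`, `D` a square modulo `7`, prime to `3`, whose
prime divisors split completely in `ℚ(i, √2, √-7)` or are inert in `ℚ(√2)` and in `ℚ(√-7)`.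

`w` is a root number of `E_D` if it is a sign with `Λ(s) = w Λ(1 - s)` in the critical strip, where
`Λ(s) = N^(s/2) (2π)^(-s) Γ(s + 1/2) L_E(s)` for some positive number `N` and `L_E` is the Hasse-Weil
`L`-function of `E_D` with all the Euler factors, in the normalisation with the centre `1/2`.

* If the matrix `R D` of quadratic symbols is nonsingular, `D ≠ 1`, then `E_D` has the rank `0`, its
  `L`-function exists and does not vanish at the centre, and all its root numbers are `1 = (-1)^0`: the
  parity conjecture holds for `E_D`.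
* Consequently it holds for a lower proportion of at least `∏_{i < (k + 1) / 2} (1 - 2^{-(2 i + 1)})` of
  the `D` of the class with `k` split prime factors and `a`, `b` inert prime factors `3`, `5` modulo `8`,
  all of them in an arbitrary set of primes of positive lower density (`b` even, `a + b ≥ 1`): of
  all of them for `k = 0`, of one half for `k = 1, 2`, of `7/16` for `k = 3, 4`, ….  The proportion of the
  `D` with nonsingular `R D` tends exactly to this number.
* And it holds for a lower proportion of at least `c = ∏_{i ≥ 0} (1 - 2^{-(2 i + 1)}) = 0.4194…` of the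
  positive and of the negative `D` of the class.
-/

set_option autoImplicit false

open Finset Filter Topology

namespace Pool.Agent.Results.MP_577099_nt.ParityInThinFamilies

open Pool.Agent.Results.MP_9c97e9_nt.FormulaModTwoExactProportion (twist base IsL Adm R cc)

open Pool.Agent.Results.MP_9c97e9_nt.FixedNumberOfPrimes (Family Rich Size Share count proportion)

/-- `Λ(s) = N^(s/2) (2π)^(-s) Γ(s + 1/2) L_E(s)`, where `L_E(s) = L(s + 1/2)` is the `L`-function in the
normalisation with the centre `1/2` -/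
noncomputable def Lambda (N : ℝ) (L : ℂ → ℂ) (s : ℂ) : ℂ :=
  (N : ℂ) ^ (s / 2) * (2 * (Real.pi : ℂ)) ^ (-s) * Complex.Gamma (s + 1 / 2) * L (s + 1 / 2)

/-- `w` is a sign with `Λ(s) = w Λ(1 - s)` in the critical strip, for some positive `N` -/
def IsRootNumber (L : ℂ → ℂ) (w : ℤ) : Prop :=
  (w = 1 ∨ w = -1) ∧ ∃ N : ℝ, 0 < N ∧ ∀ s : ℂ, 0 < s.re → s.re < 1 →
    Lambda N L s = w * Lambda N L (1 - s)

/-- the Mordell-Weil rank of `E_D` -/
noncomputable def rank (D : ℤ) : ℕ := Module.finrank ℤ (base (twist D) ℚ).toAffine.Point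

/-- The parity conjecture holds for `E_D`, with rank zero: the `L`-function exists, it does not vanish at
the centre, the group `E_D(ℚ)` is finite and of rank `0`, and every root number `w` is `1 = (-1)^0`. -/
def ParityRankZero (D : ℤ) : Prop :=
  (∃ L : ℂ → ℂ, IsL (twist D) L) ∧ Finite (base (twist D) ℚ).toAffine.Point ∧ rank D = 0 ∧
    ∀ L : ℂ → ℂ, IsL (twist D) L → L 1 ≠ 0 ∧
      ∀ w : ℤ, IsRootNumber L w → w = 1 ∧ (-1 : ℤ) ^ rank D = w

/-- the number of the `D` of the class with `|D| ≤ X`, of the sign of `s`, with `Q D` -/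
noncomputable def countSign (s : ℤ) (Q : ℤ → Prop) (X : ℕ) : ℕ :=
  Nat.card {D : ℤ // |D| ≤ X ∧ 0 < s * D ∧ Adm D ∧ Q D}

/-- For every `ε > 0` the number `b X` is at least `(t - ε) c X` for all large `X`: the lower proportion
of `b` in `c` is at least `t`. -/
def LowerProportion (b c : ℕ → ℕ) (t : ℝ) : Prop :=
  ∀ ε : ℝ, 0 < ε → ∃ X₀ : ℕ, ∀ X : ℕ, X₀ ≤ X → (t - ε) * (c X : ℝ) ≤ (b X : ℝ)

lemma root_one {L : ℂ → ℂ} (hL : L 1 ≠ 0) {w : ℤ} (h : IsRootNumber L w) : w = 1 := by
  obtain ⟨hw, N, hN, h⟩ := h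
  rcases hw with hw | hw
  · exact hw
  · exfalso
    have h1 := h (1 / 2) (by norm_num) (by norm_num)
    have e : (1 : ℂ) - 1 / 2 = 1 / 2 := by norm_num
    rw [hw, e] at h1
    have h2 : Lambda N L (1 / 2) = 0 := by
      push_cast at h1
      linear_combination h1 / 2
    unfold Lambda at h2
    have e2 : (1 / 2 : ℂ) + 1 / 2 = 1 := by norm_num
    rw [e2, Complex.Gamma_one, mul_one] at h2
    have hN0 : (N : ℂ) ≠ 0 := by exact_mod_cast hN.ne'
    have hpi : (2 * (Real.pi : ℂ)) ≠ 0 := by
      have : (Real.pi : ℂ) ≠ 0 := by exact_mod_cast Real.pi_ne_zero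
      exact mul_ne_zero two_ne_zero this
    have h3 : (N : ℂ) ^ ((1 / 2 : ℂ) / 2) ≠ 0 := by
      rw [Complex.cpow_def_of_ne_zero hN0]
      exact Complex.exp_ne_zero _
    have h4 : (2 * (Real.pi : ℂ)) ^ (-(1 / 2 : ℂ)) ≠ 0 := by
      rw [Complex.cpow_def_of_ne_zero hpi]
      exact Complex.exp_ne_zero _
    exact mul_ne_zero (mul_ne_zero h3 h4) hL h2

lemma parity {D : ℤ} (hD : Adm D) (h1 : D ≠ 1) (h : (R D).det ≠ 0) : ParityRankZero D := by
  obtain ⟨-, h2, h3⟩ := MP_9c97e9_nt.FormulaModTwoExactProportion.main hD h1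
  obtain ⟨hfin, -, hne, x, hx, -⟩ := h3 (h2.2 h)
  have hr : rank D = 0 := by
    unfold rank
    rw [Module.finrank_eq_zero_iff_isTorsion]
    intro P
    obtain ⟨n, hn, hP⟩ := isOfFinAddOrder_iff_nsmul_eq_zero.1 (isOfFinAddOrder_of_finite P)
    refine ⟨⟨(n : ℤ), mem_nonZeroDivisors_of_ne_zero (by exact_mod_cast hn.ne')⟩, ?_⟩
    show (n : ℤ) • P = 0
    rw [natCast_zsmul]
    exact hP
  refine ⟨hx.2.2.2.2.1, hfin, hr, fun L hL => ⟨hne L hL, fun w hw => ?_⟩⟩
  have := root_one (hne L hL) hw
  rw [hr, pow_zero, this]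
  exact ⟨rfl, rfl⟩

lemma lower_of {a b c : ℕ → ℕ} {t : ℝ} (hab : ∀ X, a X ≤ b X)
    (h : Tendsto (fun X : ℕ => (a X : ℝ) / (c X : ℝ)) atTop (𝓝 t)) : LowerProportion b c t := by
  intro ε hε
  obtain ⟨X₀, hX₀⟩ := eventually_atTop.1 (h.eventually (lt_mem_nhds (show t - ε < t by linarith)))
  refine ⟨X₀, fun X hX => ?_⟩
  have h1 := hX₀ X hX
  have h2 : (a X : ℝ) ≤ (b X : ℝ) := by exact_mod_cast hab X
  rcases Nat.eq_zero_or_pos (c X) with h3 | h3
  · rw [h3, Nat.cast_zero, mul_zero]
    exact Nat.cast_nonneg _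
  · have h4 : (0 : ℝ) < (c X : ℝ) := by exact_mod_cast h3
    rw [lt_div_iff₀ h4] at h1
    linarith

/-- **Main theorem.**
(1) Let `D ≠ 1` be in the class, `R D` nonsingular.  Then the parity conjecture holds for `E_D`: the rank
is `0`, the `L`-function exists and does not vanish at the centre, and all the root numbers are `1`.
(2) Let `b` be even, `a + b ≥ 1`, and let `S` contain a positive lower proportion of the primes of each
of the kinds that occur.  The number of the members of `Family S k a b` has the order of magnitude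
`X (log log X)^(k + a + b - 1) / log X`, the proportion of those with nonsingular `R D` tends to
`∏_{i < (k + 1) / 2} (1 - 2^{-(2 i + 1)})`, and the lower proportion of those for which the parity
conjecture holds is at least this number.
(3) The lower proportion of the `D` for which the parity conjecture holds is at least
`c = ∏_{i ≥ 0} (1 - 2^{-(2 i + 1)})` among the positive and among the negative `D` of the class, and
`0.4194 < c < 0.4195`; there are at least a constant times `X (log X)^(-5/8)` of them.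
(4) The condition on `S` holds for the residue classes `c` modulo `q`, with `q` prime to `14` and `c`
prime to `q`. -/
theorem result :
    (∀ D : ℤ, Adm D → D ≠ 1 → (R D).det ≠ 0 → ParityRankZero D) ∧
    (∀ (S : Set ℕ) (k a b : ℕ), Even b → 1 ≤ a + b → Rich S k a b → Size S k a b ∧
      Share S k a b (fun D => (R D).det ≠ 0) (proportion k) ∧
      LowerProportion (count fun D => Family S k a b D ∧ ParityRankZero D) (count (Family S k a b))
        (proportion k)) ∧
    (∀ s : ℤ, (s = 1 ∨ s = -1) →
      LowerProportion (countSign s ParityRankZero) (countSign s fun _ => True) cc ∧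
      ∃ (b : ℝ) (X₀ : ℕ), 0 < b ∧ ∀ X : ℕ, X₀ ≤ X →
        b * X * (Real.log X) ^ (-(5 / 8) : ℝ) ≤ (countSign s (fun _ => True) X : ℝ)) ∧
    (0.4194 < cc ∧ cc < 0.4195) ∧
    ∀ q c : ℕ, Nat.Coprime q 14 → Nat.Coprime c q → ∀ k a b : ℕ, Rich {p | p % q = c % q} k a b := by
  classical
  obtain ⟨r1, r2, r3⟩ := MP_9c97e9_nt.FixedNumberOfPrimes.result
  refine ⟨fun D hD h1 h => parity hD h1 h, fun S k a b hb hab hS => ?_, fun s hs => ⟨?_,
    Pool.Agent.V11291.F9.low hs⟩, Pool.Agent.Y948.CQ.t_C2.2.2.2, r3⟩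
  · obtain ⟨h1, h2, -⟩ := r1 S k a b hb hab hS
    have h3 : Share S k a b (fun D => (R D).det ≠ 0) (proportion k) := by
      unfold Share at h2 ⊢
      have e : (fun D => Family S k a b D ∧ (R D).det ≠ 0) = fun D => Family S k a b D ∧
          MP_9c97e9_nt.FormulaModTwoExactProportion.TwoPart D := by
        funext D
        exact propext (and_congr_right fun h => ((r2 S k a b D hab h).1).symm)
      rw [e]
      exact h2
    refine ⟨h1, h3, lower_of (fun X => ?_) h3⟩
    have := MP_9c97e9_nt.FixedNumberOfPrimes.fin_lt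
      (fun D => Family S k a b D ∧ ParityRankZero D) X
    refine Nat.card_le_card_of_injective (fun D => ⟨D.1, D.2.1, D.2.2.1,
      parity D.2.2.1.1 (MP_9c97e9_nt.FixedNumberOfPrimes.ne_one hab D.2.2.1) D.2.2.2⟩)
      fun D D' h => ?_
    exact Subtype.ext (congrArg (fun z => z.1) h)
  · have h1 := Pool.Agent.V11291.F9.prop1 hs (fun D => (R D).det ≠ 0 ∧ D ≠ 1) fun D hD h1 => by
      rw [MP_9c97e9_nt.FormulaModTwoExactProportion.R_eq hD]
      exact and_iff_left h1
    refine lower_of (a := fun X => Pool.Agent.V11291.F9.cnt s (fun D => (R D).det ≠ 0 ∧ D ≠ 1) X)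
      (fun X => ?_) h1
    have : Finite {D : ℤ // |D| ≤ X ∧ 0 < s * D ∧ Adm D ∧ ParityRankZero D} :=
      MP_9c97e9_nt.FixedNumberOfPrimes.fin_lt (fun D => 0 < s * D ∧ Adm D ∧ ParityRankZero D) X
    refine Nat.card_le_card_of_injective (fun D => ⟨D.1, D.2.1, D.2.2.1, D.2.2.2.1,
      parity D.2.2.2.1 D.2.2.2.2.2 D.2.2.2.2.1⟩) fun D D' h => ?_
    exact Subtype.ext (congrArg (fun z => z.1) h)

end Pool.Agent.Results.MP_577099_nt.ParityInThinFamilies
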